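import Pool.Agent.H61.CM4.TargetsB

/-!
# Row B1_LBA of `cm4_modules`: a basis of a lattice of finite index
-/

set_option autoImplicit false
set_option linter.unusedSectionVars false

open MeasureTheory Set Filter NumberField NumberField.InfinitePlace NumberField.Units
  NumberField.Units.dirichletUnitTheorem Pool.Agent.H65.CM4 Pool.Agent.H25.HK Pool.Agent.H61.CM4
open scoped Real

namespace Pool.Agent.H90.CM4B

section

variable {k : Type} [Field k] [NumberField k] [IsTotallyReal k]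

/-- the embeddings of a totally real field -/
theorem exists_equiv (hcard : Fintype.card (Pl k) = dg k) :
    ∃ e : Pl k ≃ (k →ₐ[ℚ] ℂ), ∀ (v : Pl k) (x : k), e v x = ((rv v x : ℝ) : ℂ) := by
  have hinj : Function.Injective (fun v : Pl k => v.embedding) := by
    intro v w h
    simp only at h
    rw [← mk_embedding v, ← mk_embedding w, h]
  have hc : Fintype.card (Pl k) = Fintype.card (k →+* ℂ) := by
    rw [hcard, Embeddings.card]
    rfl
  have hbij : Function.Bijective (fun v : Pl k => v.embedding) :=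
    (Fintype.bijective_iff_injective_and_card _).2 ⟨hinj, hc⟩
  refine ⟨(Equiv.ofBijective _ hbij).trans (RingHom.equivRatAlgHom k ℂ), fun v x => ?_⟩
  have h : ((Equiv.ofBijective _ hbij).trans (RingHom.equivRatAlgHom k ℂ)) v x = v.embedding x :=
    rfl
  rw [h]
  exact (embedding_of_isReal_apply (IsTotallyReal.isReal v) x).symm

/-- the matrix of the embeddings of a basis of the integers -/
noncomputable def Am (om : Pl k → 𝓞 k) : Matrix (Pl k) (Pl k) ℝ := fun v i => rv v (om i : k)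

theorem det_Am [DecidableEq (Pl k)] (hcard : Fintype.card (Pl k) = dg k)
    (om : Module.Basis (Pl k) ℤ (𝓞 k)) : (Am (fun i => om i)).det ^ 2 = (discr k : ℝ) := by
  classical
  obtain ⟨e, he⟩ := exists_equiv hcard
  have h1 := Algebra.discr_eq_det_embeddingsMatrixReindex_pow_two ℚ ℂ
    (fun i : Pl k => (om.localizationLocalization ℚ (nonZeroDivisors ℤ) k) i) e
  have h2 : Algebra.discr ℚ (om.localizationLocalization ℚ (nonZeroDivisors ℤ) k) =
      algebraMap ℤ ℚ (discr k) := by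
    rw [Algebra.discr_localizationLocalization ℤ (nonZeroDivisors ℤ) k om,
      NumberField.discr_eq_discr]
  have h3 : (Algebra.embeddingsMatrixReindex ℚ ℂ
      (fun i : Pl k => (om.localizationLocalization ℚ (nonZeroDivisors ℤ) k) i) e) =
      ((Am (fun i => om i)).map (fun x : ℝ => (x : ℂ))).transpose := by
    ext i j
    have h4 : (Algebra.embeddingsMatrixReindex ℚ ℂ
      (fun i : Pl k => (om.localizationLocalization ℚ (nonZeroDivisors ℤ) k) i) e) i j =
        e j ((om.localizationLocalization ℚ (nonZeroDivisors ℤ) k) i) := rfl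
    rw [h4, he, Module.Basis.localizationLocalization_apply]
    rfl
  have h5 : ((Am (fun i => om i)).map (fun x : ℝ => (x : ℂ))).transpose.det =
      (((Am (fun i => om i)).det : ℝ) : ℂ) := by
    rw [Matrix.det_transpose]
    exact ((RingHom.map_det Complex.ofRealHom (Am (fun i => om i))).symm)
  rw [h3, h5] at h1
  have h6 : (algebraMap ℚ ℂ) (Algebra.discr ℚ
      (fun i : Pl k => (om.localizationLocalization ℚ (nonZeroDivisors ℤ) k) i)) =
      ((discr k : ℝ) : ℂ) := by
    have h7 : Algebra.discr ℚ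
        (fun i : Pl k => (om.localizationLocalization ℚ (nonZeroDivisors ℤ) k) i) =
        algebraMap ℤ ℚ (discr k) := h2
    rw [h7]
    simp
  rw [h6] at h1
  have h8 : ((discr k : ℝ) : ℂ) = (((Am (fun i => om i)).det ^ 2 : ℝ) : ℂ) := by
    rw [h1]; push_cast; rfl
  exact (Complex.ofReal_injective h8).symm

/-- the index set -/
def ixE (α : Type) : (α ⊕ α) ≃ α × Fin 2 where
  toFun := Sum.elim (fun a => (a, 0)) (fun a => (a, 1))
  invFun p := if p.2 = 0 then Sum.inl p.1 else Sum.inr p.1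
  left_inv := by
    rintro (a | a) <;> simp
  right_inv := by
    rintro ⟨a, i⟩
    fin_cases i <;> simp

/-- the basis of the pairs -/
noncomputable def wb (om : Module.Basis (Pl k) ℤ (𝓞 k)) :
    Module.Basis (Pl k × Fin 2) ℤ (V2 k) := (om.prod om).reindex (ixE (Pl k))

theorem wb_zero (om : Module.Basis (Pl k) ℤ (𝓞 k)) (v : Pl k) : wb om (v, 0) = (om v, 0) := by
  unfold wb
  rw [Module.Basis.reindex_apply]
  have h : (ixE (Pl k)).symm (v, 0) = Sum.inl v := by simp [ixE]
  rw [h]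
  refine Prod.ext ?_ ?_
  · rw [Module.Basis.prod_apply_inl_fst]
  · rw [Module.Basis.prod_apply_inl_snd]

theorem wb_one (om : Module.Basis (Pl k) ℤ (𝓞 k)) (v : Pl k) : wb om (v, 1) = (0, om v) := by
  unfold wb
  rw [Module.Basis.reindex_apply]
  have h : (ixE (Pl k)).symm (v, 1) = Sum.inr v := by simp [ixE]
  rw [h]
  refine Prod.ext ?_ ?_
  · rw [Module.Basis.prod_apply_inr_fst]
  · rw [Module.Basis.prod_apply_inr_snd]

open scoped Kronecker in
theorem Bm_wb [DecidableEq (Pl k)] (om : Module.Basis (Pl k) ℤ (𝓞 k)) :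
    Bm (fun i => wb om i) = Am (fun i => om i) ⊗ₖ (1 : Matrix (Fin 2) (Fin 2) ℝ) := by
  ext ⟨p, i⟩ ⟨v, j⟩
  have h0 : rv p ((0 : 𝓞 k) : k) = 0 := by
    have : ((0 : 𝓞 k) : k) = 0 := rfl
    rw [this, map_zero]
  have hL : Bm (fun i => wb om i) (p, i) (v, j) =
      if i = 0 then rv p (((wb om (v, j)).1 : 𝓞 k) : k) else rv p (((wb om (v, j)).2 : 𝓞 k) : k) :=
    rfl
  have hR : (Am (fun i => om i) ⊗ₖ (1 : Matrix (Fin 2) (Fin 2) ℝ)) (p, i) (v, j) =
      rv p (om v : k) * (1 : Matrix (Fin 2) (Fin 2) ℝ) i j := rfl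
  rw [hL, hR]
  fin_cases i <;> fin_cases j <;> simp [wb_zero, wb_one]

theorem det_Bm_wb [DecidableEq (Pl k)] (hcard : Fintype.card (Pl k) = dg k)
    (om : Module.Basis (Pl k) ℤ (𝓞 k)) : |(Bm (fun i => wb om i)).det| = dk k := by
  rw [Bm_wb, Matrix.det_kronecker, Matrix.det_one, one_pow, mul_one, Fintype.card_fin,
    det_Am hcard]
  unfold dk
  rw [Nat.cast_natAbs, Int.cast_abs]

/-- a basis of the integers indexed by the places -/
theorem exists_om (hcard : Fintype.card (Pl k) = dg k) :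
    Nonempty (Module.Basis (Pl k) ℤ (𝓞 k)) := by
  classical
  have h : Fintype.card (Module.Free.ChooseBasisIndex ℤ (𝓞 k)) = Fintype.card (Pl k) := by
    rw [hcard, ← Module.finrank_eq_card_chooseBasisIndex, RingOfIntegers.rank]
    rfl
  exact ⟨(RingOfIntegers.basis k).reindex (Fintype.equivOfCardEq h)⟩

theorem exists_bN (w : Module.Basis (Pl k × Fin 2) ℤ (V2 k)) (N : AddSubgroup (V2 k))
    (hN : N.index ≠ 0) : Nonempty (Module.Basis (Pl k × Fin 2) ℤ N) := by
  have e0 : V2 k ≃+ (Pl k × Fin 2 → ℤ) := w.equivFun.toAddEquiv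
  have h1 : (N.map (e0 : V2 k →+ (Pl k × Fin 2 → ℤ))).index ≠ 0 := by
    rw [AddSubgroup.index_map_equiv]
    exact hN
  obtain ⟨f⟩ := Int.addSubgroup_index_ne_zero_iff.1 h1
  exact ⟨Module.Basis.ofEquivFun ((e0.addSubgroupMap N).trans f).toIntLinearEquiv⟩

theorem Bm_mul (w : Module.Basis (Pl k × Fin 2) ℤ (V2 k)) (b : Pl k × Fin 2 → V2 k) :
    Bm b = Bm (fun i => w i) * (w.toMatrix b).map (fun x : ℤ => (x : ℝ)) := by
  classical
  ext p i
  rw [Matrix.mul_apply]
  have h : b i = ∑ j, w.toMatrix b j i • w j := (w.sum_toMatrix_smul_self b i).symm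
  have key : ∀ φ : V2 k →+ ℝ, φ (b i) = ∑ j, φ (w j) * (w.toMatrix b j i : ℝ) := by
    intro φ
    conv_lhs => rw [h]
    rw [map_sum]
    refine Finset.sum_congr rfl fun j _ => ?_
    rw [map_zsmul, zsmul_eq_mul, mul_comm]
  by_cases hp : p.2 = 0
  · have hk := key (((rv p.1 : k →+* ℝ).toAddMonoidHom.comp
      (algebraMap (𝓞 k) k).toAddMonoidHom).comp (AddMonoidHom.fst (𝓞 k) (𝓞 k)))
    have e1 : ∀ (c : Pl k × Fin 2 → V2 k) (j : Pl k × Fin 2), Bm c p j =
        (((rv p.1 : k →+* ℝ).toAddMonoidHom.comp (algebraMap (𝓞 k) k).toAddMonoidHom).comp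
          (AddMonoidHom.fst (𝓞 k) (𝓞 k))) (c j) := by
      intro c j
      unfold Bm
      rw [if_pos hp]
      rfl
    rw [e1 b i, hk]
    refine Finset.sum_congr rfl fun j _ => ?_
    rw [e1 (fun i => w i) j]
    rfl
  · have hk := key (((rv p.1 : k →+* ℝ).toAddMonoidHom.comp
      (algebraMap (𝓞 k) k).toAddMonoidHom).comp (AddMonoidHom.snd (𝓞 k) (𝓞 k)))
    have e1 : ∀ (c : Pl k × Fin 2 → V2 k) (j : Pl k × Fin 2), Bm c p j =
        (((rv p.1 : k →+* ℝ).toAddMonoidHom.comp (algebraMap (𝓞 k) k).toAddMonoidHom).comp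
          (AddMonoidHom.snd (𝓞 k) (𝓞 k))) (c j) := by
      intro c j
      unfold Bm
      rw [if_neg hp]
      rfl
    rw [e1 b i, hk]
    refine Finset.sum_congr rfl fun j _ => ?_
    rw [e1 (fun i => w i) j]
    rfl

end

/-- Row B1_LBA. -/
theorem pf_LBA (hIXD : T_IXD) : T_LBA := by
  intro k _ _ _ _ M hM
  obtain ⟨-, -, hcard, -⟩ := hIXD k
  obtain ⟨om⟩ := exists_om hcard
  obtain ⟨bN⟩ := exists_bN (wb om) M.toAddSubgroup hM
  refine ⟨fun i => (bN i : V2 k), ?_, ?_⟩
  · intro u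
    constructor
    · intro hu
      refine ⟨fun i => bN.repr ⟨u, hu⟩ i, ?_⟩
      have h := bN.sum_repr ⟨u, hu⟩
      have h2 := congrArg (fun x : M.toAddSubgroup => (x : V2 k)) h
      simp only at h2
      refine Eq.trans ?_ h2
      exact (map_sum M.toAddSubgroup.subtype (fun i => bN.repr ⟨u, hu⟩ i • bN i)
        Finset.univ).symm
    · rintro ⟨m, rfl⟩
      have h : ∑ i, m i • (bN i : V2 k) ∈ M.toAddSubgroup :=
        M.toAddSubgroup.sum_mem fun i _ => M.toAddSubgroup.zsmul_mem (bN i).2 _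
      exact h
  · rw [Bm_mul (wb om) (fun i => (bN i : V2 k)), Matrix.det_mul, abs_mul, det_Bm_wb hcard]
    have h1 : ((wb om).toMatrix (fun i => (bN i : V2 k))).map (fun x : ℤ => (x : ℝ)) =
        (Int.castRingHom ℝ).mapMatrix ((wb om).toMatrix (fun i => (bN i : V2 k))) := rfl
    have h2 := AddSubgroup.index_eq_natAbs_det (wb om) M.toAddSubgroup bN
    rw [h1, ← RingHom.map_det]
    have h3 : (Int.castRingHom ℝ) ((wb om).toMatrix (fun i => (bN i : V2 k))).det =
        (((wb om).det (fun i => (bN i : V2 k)) : ℤ) : ℝ) := rfl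
    rw [h3, ← Int.cast_abs, Int.abs_eq_natAbs, ← h2]
    unfold Dm ix
    push_cast
    rfl

end Pool.Agent.H90.CM4B
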